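import Mathlib
import Pool.Agent.TH407.AR.Defs
set_option autoImplicit false

/-! Job 931 (helper407, MP_5ab805_an), VR-F: fixed time `L^4` bound for all `g`. -/

namespace Pool.Agent.TH159.VR.F

open MeasureTheory Set Complex Pool.Agent.TH407.AR
open scoped ENNReal NNReal Real

lemma measurable_sq : Measurable TH407.AR.sq := by
  unfold TH407.AR.sq
  fun_prop

lemma ang_eq (x : ℝ × ℝ) : ang x = Complex.arg ((x.1 : ℂ) + x.2 * I) := by
  unfold ang
  rw [polarCoord_apply]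
  simp only
  rw [Complex.equivRealProd_symm_apply]

lemma measurable_ang : Measurable ang := by
  have : ang = fun x => Complex.arg ((x.1 : ℂ) + x.2 * I) := funext ang_eq
  rw [this]
  exact Complex.measurable_arg.comp (by fun_prop)

lemma measurable_bas : Measurable bas := by
  unfold bas
  have := measurable_sq
  fun_prop

lemma measurable_bg {g : ℝ → ℂ} (hg : Measurable g) : Measurable (bg g) := by
  unfold bg
  exact (Complex.measurable_ofReal.comp measurable_bas).mul (hg.comp measurable_ang)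

lemma sq_nonneg' (x : ℝ × ℝ) : 0 ≤ TH407.AR.sq x := by
  unfold TH407.AR.sq
  positivity

lemma bas_nonneg (x : ℝ × ℝ) : 0 ≤ bas x := by
  unfold bas
  positivity

lemma bas_le (x : ℝ × ℝ) : bas x ≤ Real.exp (-(1 / 2) * x.1 ^ 2) * Real.exp (-(1 / 2) * x.2 ^ 2) := by
  have h0 := sq_nonneg' x
  have h1 : √(TH407.AR.sq x) ≤ Real.exp (TH407.AR.sq x / 2) := by
    rw [Real.sqrt_le_left (Real.exp_pos _).le, ← Real.exp_nat_mul]
    have h2 : ((2 : ℕ) : ℝ) * (TH407.AR.sq x / 2) = TH407.AR.sq x := by push_cast; ring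
    rw [h2]
    have := Real.add_one_le_exp (TH407.AR.sq x)
    linarith
  have h3 : Real.exp (-(1 / 2) * x.1 ^ 2) * Real.exp (-(1 / 2) * x.2 ^ 2) =
      Real.exp (TH407.AR.sq x / 2) * Real.exp (-TH407.AR.sq x) := by
    rw [← Real.exp_add, ← Real.exp_add]
    congr 1
    unfold TH407.AR.sq
    ring
  rw [h3]
  exact mul_le_mul_of_nonneg_right h1 (Real.exp_pos _).le

lemma bas_le_one (x : ℝ × ℝ) : bas x ≤ 1 := by
  refine (bas_le x).trans ?_
  rw [← Real.exp_add, Real.exp_le_one_iff]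
  nlinarith [sq_nonneg x.1, sq_nonneg x.2]

lemma integrable_bas : Integrable bas := by
  have h1 : Integrable fun x : ℝ => Real.exp (-(1 / 2) * x ^ 2) :=
    integrable_exp_neg_mul_sq (by norm_num)
  have h2 : Integrable (fun x : ℝ × ℝ => Real.exp (-(1 / 2) * x.1 ^ 2) *
      Real.exp (-(1 / 2) * x.2 ^ 2)) (volume.prod volume) := h1.mul_prod h1
  refine Integrable.mono (g := fun x : ℝ × ℝ => Real.exp (-(1 / 2) * x.1 ^ 2) *
      Real.exp (-(1 / 2) * x.2 ^ 2)) h2 measurable_bas.aestronglyMeasurable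
      (ae_of_all _ fun x => ?_)
  rw [Real.norm_of_nonneg (bas_nonneg x), Real.norm_of_nonneg (by positivity)]
  exact bas_le x

lemma norm_phase (r : ℝ) : ‖cexp (-(I * (r : ℂ)))‖ = 1 := by
  have h : -(I * (r : ℂ)) = ((-r : ℝ) : ℂ) * I := by push_cast; ring
  rw [h, Complex.norm_exp_ofReal_mul_I]

/-- the modulated function -/
noncomputable def mo (g : ℝ → ℂ) (t : ℝ) (x : ℝ × ℝ) : ℂ :=
  cexp (-(I * ((TH407.AR.sq x * t : ℝ) : ℂ))) * bg g x

open Classical in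
/-- the part in the upper half plane -/
noncomputable def up (g : ℝ → ℂ) (t : ℝ) (x : ℝ × ℝ) : ℂ := if 0 < x.2 then mo g t x else 0

open Classical in
/-- the part in the lower half plane -/
noncomputable def dn (g : ℝ → ℂ) (t : ℝ) (x : ℝ × ℝ) : ℂ := if x.2 < 0 then mo g t x else 0

section

variable {g : ℝ → ℂ} {B : ℝ} (hg : Measurable g) (hB : ∀ θ, ‖g θ‖ ≤ B) (t : ℝ)

include hg in
lemma measurable_mo : Measurable (mo g t) := by
  unfold mo
  have h1 : Measurable fun x : ℝ × ℝ => cexp (-(I * ((TH407.AR.sq x * t : ℝ) : ℂ))) := by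
    have := measurable_sq
    fun_prop
  exact h1.mul (measurable_bg hg)

include hg in
lemma measurable_up : Measurable (up g t) :=
  Measurable.ite (measurableSet_lt measurable_const measurable_snd) (measurable_mo hg t)
    measurable_const

include hg in
lemma measurable_dn : Measurable (dn g t) :=
  Measurable.ite (measurableSet_lt measurable_snd measurable_const) (measurable_mo hg t)
    measurable_const

include hB in
lemma norm_mo (x : ℝ × ℝ) : ‖mo g t x‖ ≤ B * bas x := by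
  unfold mo bg
  rw [norm_mul, norm_phase, one_mul, norm_mul, Complex.norm_real,
    Real.norm_of_nonneg (bas_nonneg x), mul_comm]
  exact mul_le_mul_of_nonneg_right (hB _) (bas_nonneg x)

include hB in
lemma norm_up (x : ℝ × ℝ) : ‖up g t x‖ ≤ B * bas x := by
  unfold up
  split_ifs
  · exact norm_mo hB t x
  · rw [norm_zero]
    exact mul_nonneg ((norm_nonneg _).trans (hB 0)) (bas_nonneg x)

include hB in
lemma norm_dn (x : ℝ × ℝ) : ‖dn g t x‖ ≤ B * bas x := by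
  unfold dn
  split_ifs
  · exact norm_mo hB t x
  · rw [norm_zero]
    exact mul_nonneg ((norm_nonneg _).trans (hB 0)) (bas_nonneg x)

lemma integrable_of_norm {F : ℝ × ℝ → ℂ} (hF : Measurable F) (h : ∀ x, ‖F x‖ ≤ B * bas x) :
    Integrable F := by
  refine Integrable.mono (integrable_bas.const_mul B) hF.aestronglyMeasurable
    (ae_of_all _ fun x => (h x).trans (le_abs_self _))

lemma bounded_of_norm {F : ℝ × ℝ → ℂ} (hB0 : 0 ≤ B) (h : ∀ x, ‖F x‖ ≤ B * bas x) (x : ℝ × ℝ) :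
    ‖F x‖ ≤ B := (h x).trans (mul_le_of_le_one_right hB0 (bas_le_one x))

lemma ae_snd_ne : ∀ᵐ x : ℝ × ℝ, x.2 ≠ 0 := by
  have h : ∀ᵐ y : ℝ, y ≠ 0 := by
    rw [ae_iff]
    simp
  exact Measure.quasiMeasurePreserving_snd.ae h

lemma integrable_phase {F : ℝ × ℝ → ℂ} (hF : Measurable F) (h : Integrable F) (X : ℝ × ℝ) :
    Integrable fun x : ℝ × ℝ => cexp (-(I * ((x.1 * X.1 + x.2 * X.2 : ℝ) : ℂ))) * F x := by
  have h1 : Measurable fun x : ℝ × ℝ => cexp (-(I * ((x.1 * X.1 + x.2 * X.2 : ℝ) : ℂ))) := by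
    fun_prop
  refine Integrable.mono h (h1.mul hF).aestronglyMeasurable (ae_of_all _ fun x => ?_)
  rw [norm_mul, norm_phase, one_mul]

include hg hB in
lemma FT_add (X : ℝ × ℝ) : FT (up g t) X + FT (dn g t) X = EX (bg g) X t := by
  unfold FT EX
  rw [← integral_add (integrable_phase (measurable_up hg t)
    (integrable_of_norm (measurable_up hg t) (norm_up hB t)) X)
    (integrable_phase (measurable_dn hg t)
    (integrable_of_norm (measurable_dn hg t) (norm_dn hB t)) X)]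
  refine integral_congr_ae ?_
  filter_upwards [ae_snd_ne] with x hx
  have h1 : up g t x + dn g t x = mo g t x := by
    unfold up dn
    rcases lt_or_gt_of_ne hx with h | h
    · simp [h, h.not_gt]
    · simp [h, h.not_gt]
  rw [← mul_add, h1]
  unfold mo
  rw [← mul_assoc, ← Complex.exp_add]
  congr 2
  push_cast
  ring

end

lemma ang_pos {x : ℝ × ℝ} (hx : 0 < x.2) : 0 < ang x := by
  rw [ang_eq]
  refine lt_of_le_of_ne ?_ ?_
  · rw [Complex.arg_nonneg_iff]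
    simpa using hx.le
  · intro h
    have := (Complex.arg_eq_zero_iff.1 h.symm).2
    simp at this
    exact hx.ne' this

lemma ang_refl {x : ℝ × ℝ} (hx : 0 < x.2) : ang (x.1, -x.2) = -ang x := by
  rw [ang_eq, ang_eq]
  have h1 : (((x.1, -x.2) : ℝ × ℝ).1 : ℂ) + ((((x.1, -x.2) : ℝ × ℝ).2 : ℝ) : ℂ) * I =
      (starRingEnd ℂ) ((x.1 : ℂ) + x.2 * I) := by
    simp
  rw [h1, Complex.arg_conj, if_neg]
  intro h
  have := (Complex.arg_eq_pi_iff.1 h).2
  simp at this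
  exact hx.ne' this

/-- the reflection -/
def refl : ℝ × ℝ ≃ᵐ ℝ × ℝ := (MeasurableEquiv.refl ℝ).prodCongr (MeasurableEquiv.neg ℝ)

lemma refl_apply (x : ℝ × ℝ) : refl x = (x.1, -x.2) := rfl

lemma refl_mp : MeasurePreserving refl := by
  have h : MeasurePreserving (fun x : ℝ × ℝ => (id x.1, -x.2)) (volume.prod volume)
      (volume.prod volume) :=
    (MeasurePreserving.id (volume : Measure ℝ)).prod (Measure.measurePreserving_neg volume)
  exact h

lemma dn_refl (g : ℝ → ℂ) (t : ℝ) (x : ℝ × ℝ) : dn g t (refl x) = up (fun θ => g (-θ)) t x := by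
  rw [refl_apply]
  unfold dn up
  have h1 : (-x.2 < 0) ↔ 0 < x.2 := by simp
  simp only [h1]
  split_ifs with h
  · unfold mo bg bas
    have h2 : TH407.AR.sq (x.1, -x.2) = TH407.AR.sq x := by
      unfold TH407.AR.sq
      simp
    rw [h2, ang_refl h]
  · rfl

lemma FT_dn (g : ℝ → ℂ) (t : ℝ) (X : ℝ × ℝ) :
    FT (dn g t) X = FT (up (fun θ => g (-θ)) t) (refl X) := by
  unfold FT
  rw [← refl_mp.integral_comp refl.measurableEmbedding]
  refine integral_congr_ae (ae_of_all _ fun x => ?_)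
  simp only [dn_refl]
  congr 4
  simp only [refl_apply]
  ring_nf

open Classical in
/-- the `π`-periodic function with the same values on `(0, π)` -/
noncomputable def per (g : ℝ → ℂ) (θ : ℝ) : ℂ := if 0 < θ then g θ else g (θ + π)

lemma measurable_per {g : ℝ → ℂ} (hg : Measurable g) : Measurable (per g) :=
  Measurable.ite (measurableSet_lt measurable_const measurable_id) hg
    (hg.comp (measurable_id.add_const _))

lemma up_per (g : ℝ → ℂ) (t : ℝ) : up (per g) t = up g t := by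
  funext x
  unfold up
  split_ifs with h
  · unfold mo bg per
    rw [if_pos (ang_pos h)]
  · rfl

lemma per_sq (g : ℝ → ℂ) : ∫⁻ θ in Ioo (-π) π, ‖per g θ‖ₑ ^ 2 ≤
    2 * ∫⁻ θ in Ioo (-π) π, ‖g θ‖ₑ ^ 2 := by
  have hpi := Real.pi_pos
  have h1 : Ioo (-π) π ⊆ Ioc (-π) 0 ∪ Ioo 0 π := by
    intro θ hθ
    rcases le_or_gt θ 0 with h | h
    · exact Or.inl ⟨hθ.1, h⟩
    · exact Or.inr ⟨h, hθ.2⟩
  have h2 : ∫⁻ θ in Ioc (-π) 0, ‖per g θ‖ₑ ^ 2 ≤ ∫⁻ θ in Ioo (-π) π, ‖g θ‖ₑ ^ 2 := by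
    have h3 : ∫⁻ θ in Ioc (-π) 0, ‖per g θ‖ₑ ^ 2 =
        ∫⁻ θ : ℝ, (Ioc 0 π).indicator (fun θ => ‖g θ‖ₑ ^ 2) (θ + π) := by
      rw [← lintegral_indicator measurableSet_Ioc]
      refine lintegral_congr fun θ => ?_
      by_cases hθ : θ ∈ Ioc (-π) 0
      · rw [indicator_of_mem hθ, indicator_of_mem]
        · unfold per
          rw [if_neg (not_lt.2 hθ.2)]
        · exact ⟨by linarith [hθ.1], by linarith [hθ.2]⟩
      · rw [indicator_of_notMem hθ, indicator_of_notMem]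
        intro h
        exact hθ ⟨by linarith [h.1], by linarith [h.2]⟩
    rw [h3, lintegral_add_right_eq_self (fun θ => (Ioc 0 π).indicator (fun θ => ‖g θ‖ₑ ^ 2) θ) π,
      lintegral_indicator measurableSet_Ioc, ← Measure.restrict_congr_set Ioo_ae_eq_Ioc]
    exact lintegral_mono_set (Ioo_subset_Ioo (by linarith) le_rfl)
  have h4 : ∫⁻ θ in Ioo 0 π, ‖per g θ‖ₑ ^ 2 ≤ ∫⁻ θ in Ioo (-π) π, ‖g θ‖ₑ ^ 2 := by
    have h5 : ∫⁻ θ in Ioo 0 π, ‖per g θ‖ₑ ^ 2 = ∫⁻ θ in Ioo 0 π, ‖g θ‖ₑ ^ 2 := by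
      refine setLIntegral_congr_fun measurableSet_Ioo ?_
      intro θ hθ
      simp only
      unfold per
      rw [if_pos hθ.1]
    rw [h5]
    exact lintegral_mono_set (Ioo_subset_Ioo (by linarith) le_rfl)
  calc ∫⁻ θ in Ioo (-π) π, ‖per g θ‖ₑ ^ 2
      ≤ ∫⁻ θ in Ioc (-π) 0 ∪ Ioo 0 π, ‖per g θ‖ₑ ^ 2 := lintegral_mono_set h1
    _ ≤ (∫⁻ θ in Ioc (-π) 0, ‖per g θ‖ₑ ^ 2) + ∫⁻ θ in Ioo 0 π, ‖per g θ‖ₑ ^ 2 :=
        lintegral_union_le _ _ _
    _ ≤ _ := by
        rw [two_mul]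
        exact add_le_add h2 h4

lemma refl_sq (g : ℝ → ℂ) : ∫⁻ θ in Ioo (-π) π, ‖g (-θ)‖ₑ ^ 2 =
    ∫⁻ θ in Ioo (-π) π, ‖g θ‖ₑ ^ 2 := by
  rw [← lintegral_indicator measurableSet_Ioo, ← lintegral_indicator measurableSet_Ioo,
    ← lintegral_neg_eq_self]
  refine lintegral_congr fun θ => ?_
  by_cases hθ : θ ∈ Ioo (-π) π
  · rw [indicator_of_mem, indicator_of_mem hθ]
    · simp
    · exact ⟨by linarith [hθ.2], by linarith [hθ.1]⟩
  · rw [indicator_of_notMem hθ, indicator_of_notMem]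
    intro h
    exact hθ ⟨by linarith [h.2], by linarith [h.1]⟩

lemma measurable_FT {F : ℝ × ℝ → ℂ} (hF : Measurable F) : Measurable (FT F) := by
  have h1 : Measurable (fun p : (ℝ × ℝ) × (ℝ × ℝ) =>
      cexp (-(I * ((p.2.1 * p.1.1 + p.2.2 * p.1.2 : ℝ) : ℂ))) * F p.2) := by
    have h2 : Measurable (fun p : (ℝ × ℝ) × (ℝ × ℝ) =>
      cexp (-(I * ((p.2.1 * p.1.1 + p.2.2 * p.1.2 : ℝ) : ℂ)))) := by fun_prop
    exact h2.mul (hF.comp measurable_snd)
  exact (h1.stronglyMeasurable.integral_prod_right').measurable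

lemma add_pow_four (a b : ℝ≥0∞) : (a + b) ^ 4 ≤ 8 * (a ^ 4 + b ^ 4) := by
  rcases eq_or_ne a ∞ with rfl | ha
  · simp
  rcases eq_or_ne b ∞ with rfl | hb
  · simp
  lift a to ℝ≥0 using ha
  lift b to ℝ≥0 using hb
  norm_cast
  rw [← NNReal.coe_le_coe]
  push_cast
  have h1 : ((a : ℝ) + b) ^ 2 ≤ 2 * ((a : ℝ) ^ 2 + (b : ℝ) ^ 2) := by
    nlinarith [_root_.sq_nonneg ((a : ℝ) - b)]
  have h2 : (2 * ((a : ℝ) ^ 2 + (b : ℝ) ^ 2)) ^ 2 ≤ 8 * ((a : ℝ) ^ 4 + (b : ℝ) ^ 4) := by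
    nlinarith [_root_.sq_nonneg ((a : ℝ) ^ 2 - (b : ℝ) ^ 2)]
  calc ((a : ℝ) + b) ^ 4 = (((a : ℝ) + b) ^ 2) ^ 2 := by ring
    _ ≤ (2 * ((a : ℝ) ^ 2 + (b : ℝ) ^ 2)) ^ 2 := by
        exact pow_le_pow_left₀ (by positivity) h1 2
    _ ≤ _ := h2

theorem all_of (hD : EvenBound) (hE : HalfPlane) : AllBound := by
  intro δ h0 h1
  obtain ⟨C, hC⟩ := hD δ h0 h1
  -- the upper part
  have hup : ∀ (g : ℝ → ℂ) (B : ℝ≥0), Measurable g → (∀ θ, ‖g θ‖ₑ ≤ B) → ∀ t : ℝ,
      ∫⁻ X : ℝ × ℝ, ‖FT (up g t) X‖ₑ ^ 4 ≤ 16 * (C * ENNReal.ofReal ((1 + |t|) ^ (-2 + δ)) *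
        B ^ 2 * ∫⁻ θ in Ioo (-π) π, ‖g θ‖ₑ ^ 2) := by
    intro g B hg hB t
    have hper : Measurable (per g) := measurable_per hg
    have hperB : ∀ θ, ‖per g θ‖ₑ ≤ B := by
      intro θ
      unfold per
      split_ifs
      · exact hB _
      · exact hB _
    have hperB' : ∀ θ, ‖per g θ‖ ≤ B := by
      intro θ
      have := hperB θ
      rw [enorm_le_coe] at this
      exact_mod_cast this
    have hperP : ∀ θ ∈ Ioo (-π) 0, per g (θ + π) = per g θ := by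
      intro θ hθ
      unfold per
      rw [if_pos (by linarith [hθ.1]), if_neg (not_lt.2 hθ.2.le)]
    have h2 := hC (per g) B hper hperB hperP t
    have h3 := hE (up (per g) t) (dn (per g) t)
      (integrable_of_norm (measurable_up hper t) (norm_up hperB' t))
      (integrable_of_norm (measurable_dn hper t) (norm_dn hperB' t))
      ⟨B, bounded_of_norm B.2 (norm_up hperB' t)⟩ ⟨B, bounded_of_norm B.2 (norm_dn hperB' t)⟩
      (fun x hx => by unfold up; rw [if_neg (not_lt.2 hx)])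
      (fun x hx => by unfold dn; rw [if_neg (not_lt.2 hx)])
    simp_rw [FT_add hper hperB' t] at h3
    rw [up_per] at h3
    refine h3.trans ((mul_le_mul' le_rfl (h2.trans (mul_le_mul' le_rfl (per_sq g)))).trans ?_)
    rw [show (16 : ℝ≥0∞) = 8 * 2 by norm_num]
    apply le_of_eq
    ring
  refine ⟨256 * C, fun g B hg hB t => ?_⟩
  have hB' : ∀ θ, ‖g θ‖ ≤ B := by
    intro θ
    have := hB θ
    rw [enorm_le_coe] at this
    exact_mod_cast this
  set N := ∫⁻ θ in Ioo (-π) π, ‖g θ‖ₑ ^ 2 with hN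
  have h2 := hup g B hg hB t
  have h3 := hup (fun θ => g (-θ)) B (hg.comp measurable_neg) (fun θ => hB _) t
  rw [refl_sq, ← hN] at h3
  rw [← hN] at h2
  have h4 : ∫⁻ X : ℝ × ℝ, ‖FT (dn g t) X‖ₑ ^ 4 =
      ∫⁻ X : ℝ × ℝ, ‖FT (up (fun θ => g (-θ)) t) X‖ₑ ^ 4 := by
    rw [← refl_mp.lintegral_comp_emb refl.measurableEmbedding
      (fun X => ‖FT (up (fun θ => g (-θ)) t) X‖ₑ ^ 4)]
    refine lintegral_congr fun X => ?_
    rw [FT_dn]
  calc ∫⁻ X : ℝ × ℝ, ‖EX (bg g) X t‖ₑ ^ 4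
      = ∫⁻ X : ℝ × ℝ, ‖FT (up g t) X + FT (dn g t) X‖ₑ ^ 4 := by
        simp_rw [FT_add hg hB' t]
    _ ≤ ∫⁻ X : ℝ × ℝ, 8 * (‖FT (up g t) X‖ₑ ^ 4 + ‖FT (dn g t) X‖ₑ ^ 4) :=
        lintegral_mono fun X => (pow_le_pow_left' (enorm_add_le _ _) 4).trans (add_pow_four _ _)
    _ = 8 * ((∫⁻ X : ℝ × ℝ, ‖FT (up g t) X‖ₑ ^ 4) + ∫⁻ X : ℝ × ℝ, ‖FT (dn g t) X‖ₑ ^ 4) := by
        rw [lintegral_const_mul' _ _ (by norm_num), lintegral_add_left]
        exact (measurable_FT (measurable_up hg t)).enorm.pow_const 4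
    _ ≤ 8 * (16 * (C * ENNReal.ofReal ((1 + |t|) ^ (-2 + δ)) * B ^ 2 * N) +
          16 * (C * ENNReal.ofReal ((1 + |t|) ^ (-2 + δ)) * B ^ 2 * N)) := by
        rw [h4]
        exact mul_le_mul' le_rfl (add_le_add h2 h3)
    _ = _ := by
        push_cast
        have h5 : (256 : ℝ≥0∞) = 8 * (16 + 16) := by norm_num
        rw [h5]
        ring

end Pool.Agent.TH159.VR.F
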