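import Mathlib
import Pool.Agent.TH407.AR.Defs
import Pool.Agent.TH277.CP.P
set_option autoImplicit false

/-! Job 934 (helper407, MP_5ab805_an), VR-G3: bounds for the extension of
`|x| e^{-|x|^2} b(|x|^2, arg x)`. -/

namespace Pool.Agent.TH159.VR

open MeasureTheory Set Complex Pool.Agent.TH407.AR
open scoped ENNReal NNReal Real

lemma measurable_sq : Measurable TH407.AR.sq := by
  unfold TH407.AR.sq
  fun_prop

lemma measurable_ang : Measurable ang := by
  unfold ang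
  have : Measurable fun x : ℝ × ℝ => (polarCoord x).2 := by
    simp only [polarCoord_apply]
    have h : Measurable fun x : ℝ × ℝ => (Complex.equivRealProd.symm x) := by
      have : (fun x : ℝ × ℝ => (Complex.equivRealProd.symm x)) =
          fun x : ℝ × ℝ => ((x.1 : ℂ) + x.2 * I) := by
        funext x
        exact Complex.equivRealProd_symm_apply x
      rw [this]
      fun_prop
    exact Complex.measurable_arg.comp h
  exact this

lemma measurable_bas : Measurable bas := by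
  unfold bas
  have := measurable_sq
  fun_prop

lemma sq_polar {p : ℝ × ℝ} : TH407.AR.sq (polarCoord.symm p) = p.1 ^ 2 := by
  simp only [TH407.AR.sq, polarCoord_symm_apply]
  linear_combination p.1 ^ 2 * Real.cos_sq_add_sin_sq p.2

lemma ang_polar {p : ℝ × ℝ} (hp : p ∈ polarCoord.target) : ang (polarCoord.symm p) = p.2 := by
  unfold ang
  rw [polarCoord.right_inv hp]

/-- polar coordinates with `s = r ^ 2` -/
lemma lintegral_polar_sq {h : ℝ → ℝ → ℝ≥0∞} (hh : Measurable (Function.uncurry h)) :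
    2 * ∫⁻ x : ℝ × ℝ, h (TH407.AR.sq x) (ang x) = ∫⁻ s in Ioi (0 : ℝ), ∫⁻ θ in Ioo (-π) π, h s θ := by
  have h1 : ∫⁻ x : ℝ × ℝ, h (TH407.AR.sq x) (ang x) =
      ∫⁻ p in polarCoord.target, ENNReal.ofReal p.1 * h (p.1 ^ 2) p.2 := by
    rw [← lintegral_comp_polarCoord_symm (fun x => h (TH407.AR.sq x) (ang x))]
    refine setLIntegral_congr_fun polarCoord.open_target.measurableSet ?_
    intro p hp
    simp only [smul_eq_mul]
    rw [sq_polar, ang_polar hp]
  have hm : Measurable fun p : ℝ × ℝ => ENNReal.ofReal p.1 * h (p.1 ^ 2) p.2 := by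
    have : Measurable fun p : ℝ × ℝ => h (p.1 ^ 2) p.2 :=
      hh.comp ((measurable_fst.pow_const 2).prodMk measurable_snd)
    exact (ENNReal.measurable_ofReal.comp measurable_fst).mul this
  have htar : polarCoord.target = Ioi (0 : ℝ) ×ˢ Ioo (-π) π := rfl
  rw [h1, htar, Measure.volume_eq_prod, ← Measure.prod_restrict, lintegral_prod _ hm.aemeasurable]
  have himg : (fun r : ℝ => r ^ 2) '' Ioi (0 : ℝ) = Ioi 0 := by
    ext s
    constructor
    · rintro ⟨r, hr, rfl⟩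
      exact pow_pos (show (0 : ℝ) < r from hr) 2
    · intro hs
      exact ⟨√s, Real.sqrt_pos.2 hs, Real.sq_sqrt (le_of_lt hs)⟩
  have hder : ∀ r ∈ Ioi (0 : ℝ), HasDerivWithinAt (fun r : ℝ => r ^ 2) (2 * r) (Ioi 0) r := by
    intro r _
    simpa using (hasDerivAt_pow 2 r).hasDerivWithinAt
  have hinj : InjOn (fun r : ℝ => r ^ 2) (Ioi (0 : ℝ)) := by
    intro a ha b hb hab
    exact (pow_left_inj₀ (le_of_lt ha) (le_of_lt hb) (by norm_num)).1 hab
  have h2 := lintegral_image_eq_lintegral_abs_deriv_mul measurableSet_Ioi hder hinj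
    (fun s => ∫⁻ θ in Ioo (-π) π, h s θ)
  rw [himg] at h2
  rw [h2, ← lintegral_const_mul' _ _ (by norm_num)]
  refine setLIntegral_congr_fun measurableSet_Ioi ?_
  intro r hr
  have hr' : (0 : ℝ) < r := hr
  simp only
  rw [lintegral_const_mul' _ _ ENNReal.ofReal_ne_top, ← mul_assoc, abs_of_pos (by positivity),
    ENNReal.ofReal_mul (by norm_num)]
  norm_num

lemma integral_gauss : ∫⁻ s in Ioi (0 : ℝ), ENNReal.ofReal (s * Real.exp (-(2 * s))) ≤
    ENNReal.ofReal (1 / 2) := by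
  have h1 : ∀ s : ℝ, s * Real.exp (-(2 * s)) ≤ (1 / 2) * Real.exp (-s) := by
    intro s
    have h2 : s ≤ Real.exp (s - 1) := by
      have := Real.add_one_le_exp (s - 1)
      linarith
    have h3 : Real.exp (s - 1) = Real.exp s * Real.exp (-1) := by
      rw [← Real.exp_add]; ring_nf
    have h4 : Real.exp (-1) ≤ 1 / 2 := by
      rw [Real.exp_neg]
      have := Real.add_one_le_exp 1
      rw [inv_eq_one_div]
      exact one_div_le_one_div_of_le (by norm_num) (by linarith)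
    have h5 : s ≤ Real.exp s * (1 / 2) := by
      rw [h3] at h2
      exact h2.trans (mul_le_mul_of_nonneg_left h4 (Real.exp_pos s).le)
    have h6 : Real.exp (-(2 * s)) = Real.exp (-s) * Real.exp (-s) := by
      rw [← Real.exp_add]; ring_nf
    have h7 : Real.exp s * Real.exp (-s) = 1 := by
      rw [← Real.exp_add]; simp
    have h8 := mul_le_mul_of_nonneg_right h5 (mul_pos (Real.exp_pos (-s)) (Real.exp_pos (-s))).le
    have h9 : Real.exp s * (1 / 2) * (Real.exp (-s) * Real.exp (-s)) =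
        (1 / 2) * Real.exp (-s) := by
      linear_combination (1 / 2) * Real.exp (-s) * h7
    rw [h6]
    linarith
  calc ∫⁻ s in Ioi (0 : ℝ), ENNReal.ofReal (s * Real.exp (-(2 * s)))
      ≤ ∫⁻ s in Ioi (0 : ℝ), ENNReal.ofReal ((1 / 2) * Real.exp (-s)) :=
        lintegral_mono fun s => ENNReal.ofReal_le_ofReal (h1 s)
    _ = ENNReal.ofReal (∫ s in Ioi (0 : ℝ), (1 / 2) * Real.exp (-s)) := by
        rw [ofReal_integral_eq_lintegral_ofReal]
        · exact (integrableOn_exp_neg_Ioi 0).const_mul _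
        · exact ae_of_all _ fun s => by positivity
    _ = ENNReal.ofReal (1 / 2) := by
        rw [integral_const_mul, integral_exp_neg_Ioi_zero, mul_one]

lemma enorm_phase (r : ℝ) : ‖cexp (-(I * (r : ℂ)))‖ₑ = 1 := by
  have h : -(I * (r : ℂ)) = ((-r : ℝ) : ℂ) * I := by push_cast; ring
  rw [h, ← ofReal_norm, Complex.norm_exp_ofReal_mul_I, ENNReal.ofReal_one]

lemma bas_nonneg (x : ℝ × ℝ) : 0 ≤ bas x := by
  unfold bas
  positivity

lemma sq_nonneg' (x : ℝ × ℝ) : 0 ≤ TH407.AR.sq x := by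
  unfold TH407.AR.sq
  positivity

lemma bas_sq (x : ℝ × ℝ) : bas x ^ 2 = TH407.AR.sq x * Real.exp (-(2 * TH407.AR.sq x)) := by
  unfold bas
  rw [mul_pow, Real.sq_sqrt (sq_nonneg' x), ← Real.exp_nat_mul]
  congr 2
  push_cast
  ring

lemma enorm_bas_sq (x : ℝ × ℝ) : ‖(bas x : ℂ)‖ₑ ^ 2 =
    ENNReal.ofReal (TH407.AR.sq x * Real.exp (-(2 * TH407.AR.sq x))) := by
  rw [← ofReal_norm, Complex.norm_real, Real.norm_of_nonneg (bas_nonneg x),
    ← ENNReal.ofReal_pow (bas_nonneg x), bas_sq]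

section main

variable {b : ℝ → ℝ → ℂ} (hb : Measurable (Function.uncurry b))

include hb

lemma measurable_fa : Measurable (fa b) := by
  unfold fa
  have h1 : Measurable fun x : ℝ × ℝ => b (TH407.AR.sq x) (ang x) :=
    hb.comp (measurable_sq.prodMk measurable_ang)
  exact (Complex.measurable_ofReal.comp measurable_bas).mul h1

lemma lintegral_b : 2 * ∫⁻ x : ℝ × ℝ, ‖b (TH407.AR.sq x) (ang x)‖ₑ ^ 2 ≤
    ∫⁻ s : ℝ, ∫⁻ θ in Ioo (-π) π, ‖b s θ‖ₑ ^ 2 := by
  rw [lintegral_polar_sq (h := fun s θ => ‖b s θ‖ₑ ^ 2) (by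
    have : Measurable fun p : ℝ × ℝ => ‖Function.uncurry b p‖ₑ ^ 2 := hb.enorm.pow_const 2
    exact this)]
  exact setLIntegral_le_lintegral _ _

lemma lintegral_fa_sq : 2 * ∫⁻ x : ℝ × ℝ, ‖fa b x‖ₑ ^ 2 ≤
    ∫⁻ s : ℝ, ∫⁻ θ in Ioo (-π) π, ‖b s θ‖ₑ ^ 2 := by
  refine le_trans ?_ (lintegral_b hb)
  refine mul_le_mul_right (lintegral_mono fun x => ?_) _
  unfold fa
  rw [enorm_mul, mul_pow, enorm_bas_sq]
  refine mul_le_of_le_one_left' ?_
  rw [ENNReal.ofReal_le_one]
  set s := TH407.AR.sq x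
  have h0 : 0 ≤ s := sq_nonneg' x
  have h1 : s ≤ Real.exp (2 * s) := by
    have := Real.add_one_le_exp (2 * s)
    linarith
  rw [Real.exp_neg, ← div_eq_mul_inv]
  exact (div_le_one (Real.exp_pos _)).2 h1

lemma lintegral_fa : (∫⁻ x : ℝ × ℝ, ‖fa b x‖ₑ) ^ 2 ≤
    ∫⁻ s : ℝ, ∫⁻ θ in Ioo (-π) π, ‖b s θ‖ₑ ^ 2 := by
  have hconj : Real.HolderConjugate 2 2 := Real.HolderConjugate.two_two
  have h1 := ENNReal.lintegral_mul_le_Lp_mul_Lq (volume : Measure (ℝ × ℝ)) hconj
    (f := fun x => ‖(bas x : ℂ)‖ₑ) (g := fun x => ‖b (TH407.AR.sq x) (ang x)‖ₑ)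
    (Complex.measurable_ofReal.comp measurable_bas).enorm.aemeasurable
    (hb.comp (measurable_sq.prodMk measurable_ang)).enorm.aemeasurable
  have h2 : ∫⁻ x : ℝ × ℝ, ‖fa b x‖ₑ = ∫⁻ x : ℝ × ℝ, ((fun x => ‖(bas x : ℂ)‖ₑ) *
      fun x => ‖b (TH407.AR.sq x) (ang x)‖ₑ) x := by
    refine lintegral_congr fun x => ?_
    simp only [fa, Pi.mul_apply, enorm_mul]
  have h3 : (∫⁻ x : ℝ × ℝ, ‖(bas x : ℂ)‖ₑ ^ (2 : ℝ)) ≤ 2 := by
    have h4 := lintegral_polar_sq (h := fun s _ => ENNReal.ofReal (s * Real.exp (-(2 * s)))) (by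
      have : Measurable fun p : ℝ × ℝ => ENNReal.ofReal (p.1 * Real.exp (-(2 * p.1))) := by
        fun_prop
      exact this)
    have h5 : ∫⁻ s in Ioi (0 : ℝ), ∫⁻ _θ in Ioo (-π) π, ENNReal.ofReal (s * Real.exp (-(2 * s)))
        ≤ ENNReal.ofReal (1 / 2) * ENNReal.ofReal (2 * π) := by
      simp only [lintegral_const, Measure.restrict_apply MeasurableSet.univ, univ_inter,
        Real.volume_Ioo]
      rw [lintegral_mul_const' _ _ ENNReal.ofReal_ne_top]
      refine mul_le_mul' integral_gauss (ENNReal.ofReal_le_ofReal ?_)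
      linarith
    have h6 : (∫⁻ x : ℝ × ℝ, ‖(bas x : ℂ)‖ₑ ^ (2 : ℝ)) =
        ∫⁻ x : ℝ × ℝ, ENNReal.ofReal (TH407.AR.sq x * Real.exp (-(2 * TH407.AR.sq x))) := by
      refine lintegral_congr fun x => ?_
      rw [← enorm_bas_sq, ← ENNReal.rpow_natCast]
      norm_num
    have h7 : 2 * (∫⁻ x : ℝ × ℝ, ‖(bas x : ℂ)‖ₑ ^ (2 : ℝ)) ≤ 2 * 2 := by
      rw [h6, h4]
      refine h5.trans ?_
      rw [← ENNReal.ofReal_mul (by norm_num)]
      have h8 : (2 : ℝ≥0∞) * 2 = ENNReal.ofReal 4 := by norm_num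
      rw [h8]
      apply ENNReal.ofReal_le_ofReal
      have := Real.pi_le_four
      linarith
    exact (ENNReal.mul_le_mul_iff_right (by norm_num) (by norm_num)).1 h7
  rw [h2]
  refine (pow_le_pow_left' h1 2).trans ?_
  rw [mul_pow, ← ENNReal.rpow_natCast, ← ENNReal.rpow_natCast, ← ENNReal.rpow_mul,
    ← ENNReal.rpow_mul]
  norm_num
  refine le_trans (mul_le_mul' ?_ le_rfl) (lintegral_b hb)
  simpa using h3

lemma integrable_fa (hN : ∫⁻ s : ℝ, ∫⁻ θ in Ioo (-π) π, ‖b s θ‖ₑ ^ 2 ≠ ∞) :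
    Integrable (fa b) := by
  refine ⟨(measurable_fa hb).aestronglyMeasurable, ?_⟩
  unfold HasFiniteIntegral
  by_contra h
  have h1 : ∫⁻ x : ℝ × ℝ, ‖fa b x‖ₑ = ∞ := not_lt_top_iff.1 h
  have h2 := lintegral_fa hb
  rw [h1] at h2
  exact hN (top_le_iff.1 (by simpa using h2))

lemma memLp_fa (hN : ∫⁻ s : ℝ, ∫⁻ θ in Ioo (-π) π, ‖b s θ‖ₑ ^ 2 ≠ ∞) :
    MemLp (fa b) 2 := by
  refine ⟨(measurable_fa hb).aestronglyMeasurable, ?_⟩
  rw [eLpNorm_lt_top_iff_lintegral_rpow_enorm_lt_top (by norm_num) (by norm_num)]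
  have h1 := lintegral_fa_sq hb
  have h2 : ∫⁻ x : ℝ × ℝ, ‖fa b x‖ₑ ^ (ENNReal.toReal 2) = ∫⁻ x : ℝ × ℝ, ‖fa b x‖ₑ ^ 2 := by
    refine lintegral_congr fun x => ?_
    rw [← ENNReal.rpow_natCast]
    norm_num
  rw [h2]
  refine lt_of_le_of_lt ?_ (lt_top_iff_ne_top.2 hN)
  refine le_trans ?_ h1
  exact le_mul_of_one_le_left' (by norm_num)

end main

theorem fa_bounds : FaBounds := by
  intro b hb hN
  have hi := integrable_fa hb hN
  have hL := memLp_fa hb hN
  refine ⟨hi, hL, fun t => ?_, fun X t => ?_⟩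
  · set F : ℝ × ℝ → ℂ := fun x => cexp (-(I * ((TH407.AR.sq x * t : ℝ) : ℂ))) * fa b x with hF
    have hmeas : Measurable fun x : ℝ × ℝ => cexp (-(I * ((TH407.AR.sq x * t : ℝ) : ℂ))) := by
      have := measurable_sq
      fun_prop
    have hnorm : ∀ x, ‖F x‖ₑ = ‖fa b x‖ₑ := by
      intro x
      rw [hF, enorm_mul, enorm_phase, one_mul]
    have hnorm' : ∀ x, ‖F x‖ = ‖fa b x‖ := by
      intro x
      have := congrArg ENNReal.toReal (hnorm x)
      simpa using this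
    have hFm : Measurable F := hmeas.mul (measurable_fa hb)
    have hFi : Integrable F := hi.mono hFm.aestronglyMeasurable (ae_of_all _ fun x => (hnorm' x).le)
    have hFL : MemLp F 2 := hL.mono hFm.aestronglyMeasurable (ae_of_all _ fun x => (hnorm' x).le)
    have hpl := Pool.Agent.TH277.CP.plancherel2 F hFi hFL
    have hEX : ∀ X, EX (fa b) X t =
        ∫ x : ℝ × ℝ, cexp (-(I * ((x.1 * X.1 + x.2 * X.2 : ℝ) : ℂ))) * F x := by
      intro X
      unfold EX
      refine integral_congr_ae (ae_of_all _ fun x => ?_)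
      simp only [hF]
      rw [← mul_assoc, ← Complex.exp_add]
      congr 2
      push_cast
      ring
    simp_rw [hEX]
    rw [hpl]
    simp_rw [hnorm]
    have h1 := lintegral_fa_sq hb
    have h2 : ENNReal.ofReal ((2 * π) ^ 2) = ENNReal.ofReal (2 * π ^ 2) * 2 := by
      have : (2 : ℝ≥0∞) = ENNReal.ofReal 2 := by norm_num
      rw [this, ← ENNReal.ofReal_mul (by positivity)]
      congr 1
      ring
    rw [h2, mul_assoc]
    exact mul_le_mul' le_rfl h1
  · refine le_trans (pow_le_pow_left' ?_ 2) (lintegral_fa hb)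
    unfold EX
    refine (enorm_integral_le_lintegral_enorm _).trans (lintegral_mono fun x => ?_)
    rw [enorm_mul, enorm_phase, one_mul]

end Pool.Agent.TH159.VR
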